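import Pool.Agent.D0H34.KC.Stm3
import Pool.Agent.D0H16.KC.Loc

set_option autoImplicit false

/-! Project KC, third round, module TT: doubly transitive. -/

open Polynomial NumberField

namespace Pool.Agent.D0H82.KC

open Pool.Agent.D0H34.KC

/-- embeddings extend to automorphisms -/
theorem lift_emb (L : IntermediateField ℚ (AlgebraicClosure ℚ))
    (χ : L →ₐ[ℚ] AlgebraicClosure ℚ) :
    ∃ σ : AlgebraicClosure ℚ ≃ₐ[ℚ] AlgebraicClosure ℚ, ∀ x : L, σ (x : AlgebraicClosure ℚ) = χ x := by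
  have : IsAlgClosure ℚ (AlgebraicClosure ℚ) := ⟨inferInstance, AlgebraicClosure.isAlgebraic ℚ⟩
  have : Normal ℚ (AlgebraicClosure ℚ) := IsAlgClosure.normal ℚ (AlgebraicClosure ℚ)
  let φ : AlgebraicClosure ℚ →ₐ[ℚ] AlgebraicClosure ℚ := χ.liftNormal (AlgebraicClosure ℚ)
  refine ⟨AlgEquiv.ofBijective φ (AlgHom.normal_bijective ℚ _ _ φ), fun x => ?_⟩
  exact χ.liftNormal_commutes (AlgebraicClosure ℚ) x

/-- embeddings are determined by the value at `θ` -/
theorem ext_gen {L : IntermediateField ℚ (AlgebraicClosure ℚ)} {θ : L} (h : ∀ y : L, ∃ P : ℚ[X], y = aeval θ P)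
    {φ ψ : L →ₐ[ℚ] AlgebraicClosure ℚ} (he : φ θ = ψ θ) : φ = ψ := by
  refine AlgHom.ext fun x => ?_
  obtain ⟨P, rfl⟩ := h x
  rw [← aeval_algHom_apply, ← aeval_algHom_apply, he]

theorem t_TT : S_TT := by
  intro f p _ t E hf hirr hE hEirr hfE θ₀ hθ₀ φ ψ φ' ψ' hne hne'
  obtain ⟨L, hL⟩ : ∃ L : IntermediateField ℚ (AlgebraicClosure ℚ), L = IntermediateField.adjoin ℚ {θ₀} := ⟨_, rfl⟩
  subst hL
  set L := IntermediateField.adjoin ℚ {θ₀} with hL
  obtain ⟨θ, hθ⟩ : ∃ θ : L, (θ : AlgebraicClosure ℚ) = θ₀ :=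
    ⟨⟨θ₀, IntermediateField.mem_adjoin_simple_self ℚ θ₀⟩, rfl⟩
  have : Algebra.IsAlgebraic ℚ (AlgebraicClosure ℚ) := AlgebraicClosure.isAlgebraic ℚ
  have : IsAlgClosure ℚ (AlgebraicClosure ℚ) := ⟨inferInstance, AlgebraicClosure.isAlgebraic ℚ⟩
  have : Normal ℚ (AlgebraicClosure ℚ) := IsAlgClosure.normal ℚ (AlgebraicClosure ℚ)
  have hint : IsIntegral ℚ θ₀ := (Algebra.IsAlgebraic.isAlgebraic θ₀).isIntegral
  have hall : ∀ y : L, ∃ P : ℚ[X], y = aeval θ P := by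
    intro y
    obtain ⟨P, hP⟩ := (IntermediateField.adjoin.powerBasis hint).exists_eq_aeval' y
    refine ⟨P, ?_⟩
    have hg : (IntermediateField.adjoin.powerBasis hint).gen = θ := by
      rw [IntermediateField.adjoin.powerBasis_gen]
      exact Subtype.ext (by rw [hθ]; rfl)
    rw [hP, hg, aeval_def, aeval_def]
    exact congrArg (fun r : ℚ →+* L => eval₂ r θ P) (RingHom.ext_rat _ _)
  have hθf : aeval θ f = 0 := by
    apply Subtype.ext
    have h1 : ((aeval θ f : L) : AlgebraicClosure ℚ) = aeval (θ : AlgebraicClosure ℚ) f := by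
      have := aeval_algebraMap_apply (AlgebraicClosure ℚ) θ f
      exact this.symm
    rw [h1, hθ, hθ₀]
    rfl
  have ht : aeval t f = 0 := by
    rw [aeval_def, eval₂_eq_eval_map, algebraMap_int_eq, hfE]
    simp
  obtain ⟨ι, hι⟩ := Pool.Agent.D0H16.KC.existsHom L ℚ_[p] f θ t hf hirr hθf hall ht
  -- the cofactor
  set fL : L[X] := f.map (Int.castRingHom L) with hfL
  have hroot0 : fL.IsRoot θ := by
    rw [IsRoot.def, hfL, ← eval₂_eq_eval_map]
    have e : algebraMap ℤ L = Int.castRingHom L := RingHom.ext_int _ _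
    rw [← e]
    exact hθf
  obtain ⟨k, hk⟩ : ∃ k : L[X], fL = (X - C θ) * k := dvd_iff_isRoot.2 hroot0
  have hkm : k.Monic := by
    have h1 : fL.Monic := hf.map _
    rw [hk] at h1
    exact (monic_X_sub_C θ).of_mul_monic_left h1
  have hkE : k.map ι = E := by
    have h1 : fL.map ι = f.map (Int.castRingHom ℚ_[p]) := by
      rw [hfL, Polynomial.map_map]
      congr 1
      exact RingHom.ext_int _ _
    rw [hk, Polynomial.map_mul, Polynomial.map_sub, map_X, map_C, hι, hfE] at h1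
    exact mul_left_cancel₀ (X_sub_C_ne_zero t) h1
  have hkirr : Irreducible k := by
    refine Polynomial.Monic.irreducible_of_irreducible_map ι k hkm ?_
    rw [hkE]
    exact hEirr
  obtain ⟨τφ, hτφ⟩ := lift_emb L φ
  obtain ⟨τ, hτ⟩ := lift_emb L φ'
  -- the first automorphism
  obtain ⟨σ₁, hσ₁⟩ : ∃ σ₁ : AlgebraicClosure ℚ ≃ₐ[ℚ] AlgebraicClosure ℚ, ∀ x : L,
      σ₁ (φ x) = φ' x := by
    refine ⟨τφ.symm.trans τ, fun x => ?_⟩
    rw [← hτφ, AlgEquiv.trans_apply, AlgEquiv.symm_apply_apply, hτ]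
  have hψ₁ : σ₁ (ψ θ) ≠ φ' θ := by
    intro h
    rw [← hσ₁] at h
    exact hne (ext_gen hall (σ₁.injective h)).symm
  have hψ' : ψ' θ ≠ φ' θ := fun h => hne' (ext_gen hall h).symm
  -- roots of `k`
  have hroot : ∀ z : AlgebraicClosure ℚ, aeval z f = 0 → z ≠ φ' θ →
      aeval (τ.symm z) k = 0 := by
    intro z hz hzne
    have h1 : aeval (τ.symm z) f = 0 := by
      have h2 := congrArg τ.symm hz
      rw [map_zero] at h2
      rw [← h2]
      exact (aeval_algHom_apply (τ.symm.toAlgHom.restrictScalars ℤ) z f)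
    have h3 : aeval (τ.symm z) fL = 0 := by
      have h4 : fL = f.map (algebraMap ℤ L) := rfl
      rw [h4, aeval_map_algebraMap]
      exact h1
    rw [hk, map_mul] at h3
    rcases mul_eq_zero.1 h3 with h4 | h4
    · exfalso
      rw [map_sub, aeval_X, aeval_C, sub_eq_zero] at h4
      apply hzne
      have h5 := congrArg τ h4
      rw [AlgEquiv.apply_symm_apply] at h5
      rw [h5]
      exact hτ θ
    · exact h4
  have hemb : ∀ χ : L →ₐ[ℚ] AlgebraicClosure ℚ, aeval (χ θ) f = 0 := by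
    intro χ
    have h1 : aeval (χ θ) f = χ (aeval θ f) := aeval_algHom_apply (χ.restrictScalars ℤ) θ f
    rw [h1, hθf, map_zero]
  have hz1 : aeval (σ₁ (ψ θ)) f = 0 := by
    have h2 : aeval (σ₁ (ψ θ)) f = σ₁ (aeval (ψ θ) f) :=
      aeval_algHom_apply (σ₁.toAlgHom.restrictScalars ℤ) (ψ θ) f
    rw [h2, hemb, map_zero]
  have ha := hroot _ hz1 hψ₁
  have hb := hroot _ (hemb ψ') hψ'
  have hconj : IsConjRoot L (τ.symm (σ₁ (ψ θ))) (τ.symm (ψ' θ)) := by
    rw [isConjRoot_def, ← minpoly.eq_of_irreducible hkirr ha, ← minpoly.eq_of_irreducible hkirr hb]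
  have hN : Normal L (AlgebraicClosure ℚ) := Normal.tower_top_of_normal ℚ L (AlgebraicClosure ℚ)
  obtain ⟨ρ, hρ⟩ := hconj.symm.exists_algEquiv
  let ρF : AlgebraicClosure ℚ ≃ₐ[ℚ] AlgebraicClosure ℚ := ρ.restrictScalars ℚ
  -- the second automorphism
  let σ₂ : AlgebraicClosure ℚ ≃ₐ[ℚ] AlgebraicClosure ℚ := (τ.symm.trans ρF).trans τ
  have h21 : ∀ x : L, σ₂ (φ' x) = φ' x := by
    intro x
    show τ (ρ (τ.symm (φ' x))) = φ' x
    rw [← hτ, AlgEquiv.symm_apply_apply]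
    have : ρ ((x : L) : AlgebraicClosure ℚ) = (x : AlgebraicClosure ℚ) := ρ.commutes x
    rw [this]
  have h22 : σ₂ (σ₁ (ψ θ)) = ψ' θ := by
    show τ (ρ (τ.symm (σ₁ (ψ θ)))) = ψ' θ
    rw [hρ, AlgEquiv.apply_symm_apply]
  refine ⟨σ₁.trans σ₂, ?_, ?_⟩
  · refine AlgHom.ext fun x => ?_
    show σ₂ (σ₁ (φ x)) = φ' x
    rw [hσ₁, h21]
  · refine ext_gen hall ?_
    exact h22

end Pool.Agent.D0H82.KC
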